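import Mathlib
import Pool.Agent.K6.H61.AL.PartB

set_option autoImplicit false

/-! # Lenstra's sets of primes in every short interval and in every arithmetic progression of length `H`,
for the primes up to `H ^ (2 - ε)`

Let `F / ℚ` be finite Galois, `C` a subset of its Galois group, `W₀` a subgroup of `ℚˣ`, `k ≥ 1`, `D` a
nonzero rational, `r ≥ 0`, and consider the sets of primes `𝒮(F, C, ⟨W₀, D n ^ r⟩, k)` of Q1 for the terms
`n = a + d m`, `1 ≤ m ≤ H`, of an arithmetic progression.

(1) Let `s ≥ 0` and `η > 0`. There are `c > 0` and `X₀` such that for all `Y ≥ X ≥ X₀`, all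
`H ≥ Y ^ (1/2 + η)`, EVERY `a ≥ 0` (of any size) and EVERY `d ≥ 1` with at most `X ^ (1 - η)` prime factors, for
EVERY `s`-tuple of such data and EVERY set `S` of primes: for all but at most `X ^ (-c) H` of the `m ≤ H`, the
number of the primes `q ≤ x` of `S` lying in all the `s` sets `𝒮(F_i, C_i, ⟨W₀_i, D_i n ^ r_i⟩, k_i)` differs
from `∑_{q ≤ x, q ∈ S} ρ(q)` by at most `x ^ (1 - c)`, for EVERY `x` with `X ≤ x ≤ Y`; here `ρ(q)` is the
proportion of the `b ∈ [1, q - 1]` such that `q` lies in all the `s` sets for `n = b`. The constants `c`, `X₀`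
depend only on `s` and `η`: they are uniform in the fields, groups, indices, and the set `S`.

(2) Let the data be admissible: `C` closed under conjugation, `W₀` finitely generated, `r ≥ 1`, and
`l ^ (ν_l(k) + 1)` divides `r` for all primes `l ∣ r` (for instance `r = 1`, or `k = 1`). For every `ε > 0` there
are `P`, `X₁` such that for `Y ≥ X ≥ X₁` and `H`, `a`, `d` as in (1): all but at most `X ^ (-c) H` of the `m ≤ H`
for which `n = a + d m` is exactly divisible by a prime `> P` satisfy, with Lenstra's density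
`δ(n) = δ(F, C, ⟨W₀, D n ^ r⟩, k)` and the number `S(n, x)` of the primes `q ≤ x` in the set of Q1,
`|S(n, x) - δ(n) π(x)| ≤ ε π(x)` for EVERY `x` with `X ≤ x ≤ Y`.

(3) For admissible data, `η`, `ε > 0` and `w` there is `X₁` such that for all `Y ≥ X₁` and
`H ≥ Y ^ (1/2 + η)`, for EVERY `a ≥ 0` and every `d ≥ 1` with at most `w` prime factors, for instance for every
interval `(a, a + H]`: all but at most `ε H` of the `n = a + d m`, `1 ≤ m ≤ H`, satisfy
`|S(n, x) - δ(n) π(x)| ≤ ε π(x)` for EVERY `x` with `X₁ ≤ x ≤ Y`. The lower end `X₁` of the range does not depend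
on the size of `n`, and the upper end is `H ^ (2 - ε')`.

Proof: the indicator function of the condition modulo `q` on `n` is a combination of the characters modulo `q`
with sum of absolute values of the coefficients at most `d(q - 1) ^ s`, since the `n` with a power residue
condition form a coset of a subgroup; variance over the progression; Burgess' bound for the product of two
characters modulo two different primes, over intervals in arbitrary position.

Library: helper430, helper647, helper471, helper165, helper27 (Burgess' method), helper171, helper401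
(Chebotarev densities, Lenstra's density), helper83 (limit of the mean). -/

namespace Pool.Agent.Results.MP_48b1c3_nt.EveryProgression

open Finset
open Pool.Agent.K6.H61.AL

theorem result :
    (∀ (s : ℕ) (η : ℝ), 0 < η → ∃ c : ℝ, 0 < c ∧ ∃ X₀ : ℕ,
      ∀ X Y H d : ℕ, X₀ ≤ X → Cond η X Y H d → ∀ (a : ℕ) (A : Fin s → Data) (S : Set ℕ),
        (num (Irregular A S c X Y) a d H : ℝ) ≤ (X : ℝ) ^ (-c) * H) ∧
    (∀ η : ℝ, 0 < η → ∃ c : ℝ, 0 < c ∧ ∀ A : Data, A.Admissible →
      ∀ ε : ℝ, 0 < ε → ∃ P X₁ : ℕ, ∀ X Y H d : ℕ, X₁ ≤ X → Cond η X Y H d → ∀ a : ℕ,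
        (num (fun n => Exact P n ∧ A.Bad ε X Y n) a d H : ℝ) ≤ (X : ℝ) ^ (-c) * H) ∧
    (∀ η : ℝ, 0 < η → ∀ A : Data, A.Admissible → ∀ ε : ℝ, 0 < ε → ∀ w : ℕ, ∃ X₁ : ℕ,
      ∀ Y H d : ℕ, X₁ ≤ Y → (Y : ℝ) ^ (1 / 2 + η) ≤ H → d ≠ 0 → #d.primeFactors ≤ w → ∀ a : ℕ,
        (num (A.Bad ε X₁ Y) a d H : ℝ) ≤ ε * H) := by
  refine ⟨?_, ?_, fun η hη A hA ε hε w => ?_⟩
  · intro s η hη
    obtain ⟨c, hc, X₀, h⟩ := partA' s η hη
    exact ⟨c, hc, X₀, fun X Y H d hX hc a A S => h X Y H hX hc.1 hc.2.1 a d hc.2.2.1 hc.2.2.2 A S⟩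
  · intro η hη
    obtain ⟨c, hc, h⟩ := partB η hη
    refine ⟨c, hc, fun A hA ε hε => ?_⟩
    obtain ⟨P, X₁, h'⟩ := h A hA ε hε
    refine ⟨P, X₁, fun X Y H d h1 h2 a => ?_⟩
    refine le_trans (le_of_eq ?_) (h' X Y H h1 h2.1 h2.2.1 a d h2.2.2.1 h2.2.2.2)
    unfold num
    refine congrArg (fun z : ℕ => (z : ℝ)) (congrArg Finset.card (Finset.ext fun m => ?_))
    rw [@mem_filter, @mem_filter]
    exact Iff.rfl
  · obtain ⟨X₁, h⟩ := partC η hη A hA ε hε w
    exact ⟨X₁, fun Y H d h1 h2 h3 h4 a => h Y H h1 h2 a d h3 h4⟩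

end Pool.Agent.Results.MP_48b1c3_nt.EveryProgression
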