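import Pool.Agent.K6.H83.LG.Law

set_option autoImplicit false

/-! # The Gaussian law for the sets of primes of Lenstra

Let `F / ℚ` be a finite Galois extension, `W₀ ≤ ℚˣ` finitely generated, `D ∈ ℚˣ`, `r ≥ 1`, and consider the
groups `W = ⟨W₀, D n ^ r⟩` for random `n ≤ N(x)`, where `log N(x) / log x → ∞`. The number
`S(F, C, W, k; x)` of the primes `q ≤ x` in the set `𝒮(F, C, W, k)` of Q1 has the mean
`E(x) = ∑ ρ(q)` and the variance `V(x) = ∑ ρ(q) (1 - ρ(q))` over the primes `q ≤ x`, up to negligible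
terms; here `ρ(q)` is the proportion of the `n` modulo `q` for which `q` is in the set.

(1) For disjoint unions `C_1, …, C_h` of conjugacy classes and `k_1, …, k_h ≥ 1` with `V_i(x) → ∞`, the
vector of the `(S(F, C_i, W, k_i; x) - E_i(x)) / √V_i(x)` tends in law to the standard Gaussian vector: the
error terms are asymptotically independent and normal.
(2) If `C` is not empty and `r ∣ k`, then `V(x) ≥ c π(x)`, `c > 0`, for all large `x`.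
(3) If `ℓ ^ (ν_ℓ(k) + 1)` divides `r` for all primes `ℓ ∣ r` (for instance `r = 1`, or `k = 1`), then
`E(x) ~ δ₀ π(x)` (in the sense `E(x) / π(x) → δ₀`), where `δ₀` is the limit of the densities
`δ(F, C, ⟨W₀, D n ^ r⟩, k)` of Q1 along the `n` exactly divisible by a large prime. -/

namespace Pool.Agent.Results.MP_48b1c3_nt.GaussianLaw

open NumberField Finset Filter Topology Classical

/-- the prime `q` is in the set `𝒮(F, C, W, k)` of Q1 -/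
def InS (F : IntermediateField ℚ (AlgebraicClosure ℚ)) [NumberField F]
    (C : Set (F ≃ₐ[ℚ] F)) (W : Subgroup ℚˣ) (k q : ℕ) : Prop :=
  (∃ σ ∈ C, ∃ Q : Ideal (𝓞 F), Q.IsPrime ∧
      Q.comap (algebraMap ℤ (𝓞 F)) = Ideal.span {(q : ℤ)} ∧
      ∀ a b : 𝓞 F, (b : F) = σ (a : F) → b - a ^ q ∈ Q) ∧
  (∀ w ∈ W, padicValRat q (w : ℚ) = 0) ∧
  (Subgroup.closure {u : (ZMod q)ˣ | ∃ w ∈ W,
      (((w : ℚ).num : ℤ) : ZMod q) = (u : ZMod q) * (((w : ℚ).den : ℕ) : ZMod q)}).index ∣ k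

/-- the number of primes `q ≤ x` in the set of Q1 -/
noncomputable def S (F : IntermediateField ℚ (AlgebraicClosure ℚ)) [NumberField F]
    (C : Set (F ≃ₐ[ℚ] F)) (W : Subgroup ℚˣ) (k x : ℕ) : ℕ :=
  Nat.card {q : ℕ // q ≤ x ∧ q.Prime ∧ InS F C W k q}

/-- the group `⟨W₀, D n ^ r⟩` -/
def grp (W₀ : Subgroup ℚˣ) (D : ℚˣ) (r n : ℕ) : Subgroup ℚˣ :=
  W₀ ⊔ Subgroup.closure {w : ℚˣ | (w : ℚ) = (D : ℚ) * (n : ℚ) ^ r}

/-- the proportion of the `n` modulo `q` for which `q ∈ 𝒮(F, C, ⟨W₀, D n ^ r⟩, k)` (set to `0` at the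
finitely many primes `q` at which `D` is not a unit) -/
noncomputable def ρ (F : IntermediateField ℚ (AlgebraicClosure ℚ)) [NumberField F]
    (C : Set (F ≃ₐ[ℚ] F)) (W₀ : Subgroup ℚˣ) (k : ℕ) (D : ℚˣ) (r q : ℕ) : ℝ :=
  if padicValRat q (D : ℚ) = 0 then
    (((Finset.Icc 1 (q - 1)).filter (fun n : ℕ => InS F C (grp W₀ D r n) k q)).card : ℝ) / q else 0

/-- the mean: the sum of `ρ(q)` over the primes `q ≤ x` -/
noncomputable def E (F : IntermediateField ℚ (AlgebraicClosure ℚ)) [NumberField F]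
    (C : Set (F ≃ₐ[ℚ] F)) (W₀ : Subgroup ℚˣ) (k : ℕ) (D : ℚˣ) (r x : ℕ) : ℝ :=
  ∑ q ∈ (Finset.range (x + 1)).filter Nat.Prime, ρ F C W₀ k D r q

/-- the variance: the sum of `ρ(q) (1 - ρ(q))` over the primes `q ≤ x` -/
noncomputable def V (F : IntermediateField ℚ (AlgebraicClosure ℚ)) [NumberField F]
    (C : Set (F ≃ₐ[ℚ] F)) (W₀ : Subgroup ℚˣ) (k : ℕ) (D : ℚˣ) (r x : ℕ) : ℝ :=
  ∑ q ∈ (Finset.range (x + 1)).filter Nat.Prime, ρ F C W₀ k D r q * (1 - ρ F C W₀ k D r q)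

/-- Lenstra's density -/
noncomputable def δ (F : IntermediateField ℚ (AlgebraicClosure ℚ)) [NumberField F]
    (C : Set (F ≃ₐ[ℚ] F)) (W : Subgroup ℚˣ) (k : ℕ) : ℝ :=
  ∑' n : ℕ, (ArithmeticFunction.moebius n : ℝ) *
    (Nat.card {σ : F ≃ₐ[ℚ] F // σ ∈ C ∧ ∀ y : F,
        (y : AlgebraicClosure ℚ) ∈ IntermediateField.adjoin ℚ
          {z : AlgebraicClosure ℚ | ∃ w ∈ W,
            z ^ (∏ l ∈ n.primeFactors, l ^ (k.factorization l + 1)) =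
              algebraMap ℚ (AlgebraicClosure ℚ) (w : ℚ)} → σ y = y} : ℝ) /
    (Module.finrank ℚ ↥(F ⊔ IntermediateField.adjoin ℚ
          {z : AlgebraicClosure ℚ | ∃ w ∈ W,
            z ^ (∏ l ∈ n.primeFactors, l ^ (k.factorization l + 1)) =
              algebraMap ℚ (AlgebraicClosure ℚ) (w : ℚ)}) : ℝ)

section
variable (F : IntermediateField ℚ (AlgebraicClosure ℚ)) [NumberField F] [IsGalois ℚ F]
  (C : Set (F ≃ₐ[ℚ] F)) (W₀ : Subgroup ℚˣ) (k : ℕ) (D : ℚˣ) (r : ℕ)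

lemma S_eq (n x : ℕ) : S F C (grp W₀ D r n) k x = Pool.Agent.K6.H83.LG.SL F C W₀ k D r n x := by
  have h := Pool.Agent.W171.LG.Sc_eq F C (grp W₀ D r n) k x
  refine Eq.trans (by rfl) (h.trans ?_)
  unfold Pool.Agent.K6.H83.LG.SL Pool.Agent.N430.CLT.PP grp
  rw [Finset.filter_filter]

lemma ρ_eq (hk : k ≠ 0) (hr : r ≠ 0) {q : ℕ} (hq : q.Prime) :
    ρ F C W₀ k D r q = Pool.Agent.K6.H83.GL.rho q (Pool.Agent.W171.LG.QR F C W₀ k D r q) := by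
  have : Fact q.Prime := ⟨hq⟩
  have hun := Pool.Agent.W171.LG.un_iff (p := q) (w := (D : ℚ)) D.ne_zero
  unfold ρ Pool.Agent.K6.H83.GL.rho Pool.Agent.N430.CLT.avgP
  split_ifs with h
  · congr 1
    rw [← Finset.sum_filter, Finset.sum_const, nsmul_eq_mul, mul_one]
    congr 2
    ext n
    rw [Finset.mem_filter, Finset.mem_filter, Finset.mem_Icc, Finset.mem_range]
    have hq1 := hq.one_lt
    constructor
    · rintro ⟨h1, h2⟩
      refine ⟨by omega, ?_⟩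
      have h3 : Pool.Agent.W171.LG.LC F C k (W₀ ⊔ Subgroup.closure
        {w : ℚˣ | (w : ℚ) = (D : ℚ) * (n : ℚ) ^ r}) q := h2
      rw [Pool.Agent.W171.LG.gp_eqR W₀ D r (by omega)] at h3
      exact (Pool.Agent.W171.LG.LC_iffR F C W₀ k D r hk hr hq (hun.2 h) (by omega)).1 h3
    · rintro ⟨h1, h2⟩
      have hn : n ≠ 0 := by
        rintro rfl
        exact h2.2.2.2.1 (by simp)
      refine ⟨⟨by omega, by omega⟩, ?_⟩
      have h3 := (Pool.Agent.W171.LG.LC_iffR F C W₀ k D r hk hr hq (hun.2 h) hn).2 h2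
      rw [← Pool.Agent.W171.LG.gp_eqR W₀ D r hn] at h3
      exact h3
  · rw [Finset.sum_eq_zero, zero_div]
    intro m _
    rw [if_neg]
    intro h2
    exact h (hun.1 h2.2.2.1)

lemma E_eq (hk : k ≠ 0) (hr : r ≠ 0) (x : ℕ) :
    E F C W₀ k D r x = Pool.Agent.K6.H83.LG.EL F C W₀ k D r x :=
  Finset.sum_congr rfl fun _ hq => ρ_eq F C W₀ k D r hk hr (Finset.mem_filter.1 hq).2

lemma V_eq (hk : k ≠ 0) (hr : r ≠ 0) (x : ℕ) :
    V F C W₀ k D r x = Pool.Agent.K6.H83.LG.VL F C W₀ k D r x :=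
  Finset.sum_congr rfl fun _ hq => by rw [ρ_eq F C W₀ k D r hk hr (Finset.mem_filter.1 hq).2]

end

theorem result (F : IntermediateField ℚ (AlgebraicClosure ℚ)) [NumberField F] [IsGalois ℚ F]
    (W₀ : Subgroup ℚˣ) (hW₀ : W₀.FG) (D : ℚˣ) (r : ℕ) (hr : 0 < r) :
    (∀ (h : ℕ) (C : Fin h → Set (F ≃ₐ[ℚ] F)) (k : Fin h → ℕ),
      (∀ i, ∀ σ ∈ C i, ∀ τ : F ≃ₐ[ℚ] F, τ * σ * τ⁻¹ ∈ C i) →
      (∀ i j, i ≠ j → Disjoint (C i) (C j)) → (∀ i, 0 < k i) →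
      (∀ i, Tendsto (V F (C i) W₀ (k i) D r) atTop atTop) →
      ∀ N : ℕ → ℕ, Tendsto (fun x : ℕ => Real.log (N x) / Real.log x) atTop atTop →
      ∀ f : BoundedContinuousFunction (EuclideanSpace ℝ (Fin h)) ℝ,
        Tendsto (fun x : ℕ => (∑ n ∈ Finset.Icc 1 (N x), f (WithLp.toLp 2 (fun i =>
            ((S F (C i) (grp W₀ D r n) (k i) x : ℝ) - E F (C i) W₀ (k i) D r x) /
              √(V F (C i) W₀ (k i) D r x)))) / (N x : ℝ)) atTop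
          (𝓝 (∫ z, f z ∂(ProbabilityTheory.multivariateGaussian 0 (1 : Matrix (Fin h) (Fin h) ℝ))))) ∧
    (∀ (C : Set (F ≃ₐ[ℚ] F)) (k : ℕ), (∀ σ ∈ C, ∀ τ : F ≃ₐ[ℚ] F, τ * σ * τ⁻¹ ∈ C) →
      C.Nonempty → 0 < k → r ∣ k →
      ∃ c : ℝ, 0 < c ∧ ∀ᶠ x : ℕ in atTop, c * (Nat.primeCounting x : ℝ) ≤ V F C W₀ k D r x) ∧
    (∀ (C : Set (F ≃ₐ[ℚ] F)) (k : ℕ), (∀ σ ∈ C, ∀ τ : F ≃ₐ[ℚ] F, τ * σ * τ⁻¹ ∈ C) →
      0 < k → (∀ l : ℕ, l.Prime → l ∣ r → l ^ (k.factorization l + 1) ∣ r) →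
      ∃ δ₀ : ℝ, Tendsto (fun x : ℕ => E F C W₀ k D r x / (Nat.primeCounting x : ℝ)) atTop (𝓝 δ₀) ∧
        ∀ ε : ℝ, 0 < ε → ∃ P : ℕ, ∀ n : ℕ, 0 < n →
          (∃ p : ℕ, p.Prime ∧ P < p ∧ p ∣ n ∧ ¬ p ^ 2 ∣ n) →
          |δ F C (grp W₀ D r n) k - δ₀| ≤ ε) := by
  refine ⟨?_, ?_, ?_⟩
  · intro h C k hC hCd hk hV N hN f
    have hV' : ∀ i, Tendsto (Pool.Agent.K6.H83.LG.VL F (C i) W₀ (k i) D r) atTop atTop := fun i =>
      (hV i).congr fun x => V_eq F (C i) W₀ (k i) D r (hk i).ne' hr.ne' x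
    have key := Pool.Agent.K6.H83.LG.law F W₀ D r hr.ne' C k hC hCd (fun i => (hk i).ne') hV' N
      (Pool.Agent.N430.CLT.growth N hN) f
    refine key.congr fun x => ?_
    unfold Pool.Agent.N430.CLT.avg
    congr 1
    refine Finset.sum_congr rfl fun n _ => ?_
    beta_reduce
    congr 2
    funext i
    rw [S_eq, E_eq F (C i) W₀ (k i) D r (hk i).ne' hr.ne', V_eq F (C i) W₀ (k i) D r (hk i).ne' hr.ne']
  · intro C k hC hCne hk hrk
    obtain ⟨c, hc, h⟩ := Pool.Agent.K6.H83.LG.var_lower F C W₀ k D r hC hCne hW₀ hk.ne' hrk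
      Set.univ (fun _ _ _ => Set.mem_univ _)
    refine ⟨c, hc, ?_⟩
    filter_upwards [h] with x hx
    rw [V_eq F C W₀ k D r hk.ne' hr.ne']
    refine hx.trans (le_of_eq ?_)
    unfold Pool.Agent.K6.H83.GL.mV Pool.Agent.K6.H83.LG.VL
    rw [Finset.sum_filter]
    exact Finset.sum_congr rfl fun p _ => if_pos (Set.mem_univ _)
  · intro C k hC hk hrk
    have hrk' : ∀ l : ℕ, l.Prime → l ∣ r → Pool.Agent.H981R3.LN.ql k l ∣ r := hrk
    refine ⟨∑' e : ℕ, Pool.Agent.W171.LG.aR F C (W₀ ⊔ Subgroup.zpowers D) W₀ k r.primeFactors e,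
      ?_, ?_⟩
    · have h := Pool.Agent.K6.H83.LG.mean_lim F C W₀ k D r hC hW₀ hr.ne' hrk' Set.univ
        (fun _ _ _ => Set.mem_univ _)
      refine h.congr fun x => ?_
      rw [E_eq F C W₀ k D r hk.ne' hr.ne']
      unfold Pool.Agent.K6.H83.GL.mE Pool.Agent.K6.H83.LG.EL
      rw [Finset.sum_filter]
      congr 1
      exact Finset.sum_congr rfl fun p _ => if_pos (Set.mem_univ _)
    · intro ε hε
      obtain ⟨P, hP⟩ := Pool.Agent.W171.LG.closeR F C k hW₀ D hr hrk' ε hε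
      refine ⟨P, fun n hn hp => ?_⟩
      have h1 := hP n hn.ne' hp
      rw [← Pool.Agent.W171.LG.gp_eqR W₀ D r hn.ne'] at h1
      exact h1

end Pool.Agent.Results.MP_48b1c3_nt.GaussianLaw
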