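import Pool.Agent.K6.H83.LS.Metric
import Pool.Agent.N251.LF.Win
import Pool.Agent.N251.LF.Fields

/-!
# Lenstra's density near the values of generic linear forms: the groups `⟨W₀, D n ^ r⟩` for EVERY integer `n` near
# `f(m)`, for almost every polynomial `f`, near `α_1 b_1 ^ (n_1) + ⋯ + α_l b_l ^ (n_l)`, and near other linear forms

Let `1 / 2 < θ < 1`, `C₀ > 1 / (2 θ - 1)` and `0 ≤ B < 1 / (2 (1 - θ))`.  Let `v_i`, `i` in a countable set, be vectors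
in `ℝ ^ l`, `O(X ^ (τ + ε))` of them of norm at most `X` for every `ε > 0`: for instance `(1, m, …, m ^ d)` with
`τ = 1 / d`, or `(b_1 ^ (n_1), …, b_l ^ (n_l))`, `b_j > 1`, for ALL `n_1, …, n_l`, with `τ = 0`, or
`(n_1 ^ (a_1), …, n_l ^ (a_l))` with `τ = ∑ 1 / a_j`, or a product of arbitrary sequences.  Let `η < 1`.

There is ONE set `E` in `ℝ ^ l` of Hausdorff dimension at most `l - 1 + (θ + τ) / (1 - η)` such that for every `α`
outside `E`: for ALL data `(F, C, W₀, k, D, r)` (any finite Galois extension `F / ℚ`, any conjugation-stable `C`, any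
finitely generated `W₀`, any `k ≥ 1`, any nonzero rational `D`, any `r ≥ 1` such that `ℓ ^ (ν_ℓ(k) + 1)` divides `r` for
all primes `ℓ ∣ r`), all `ε > 0`, all `c` and all but finitely many `i`: EVERY integer `n ≥ 1` with
`|n - α · v_i| ≤ c ‖v_i‖ ^ η` satisfies, with `W = ⟨W₀, D n ^ r⟩`, `|S(x) - δ(F, C, W, k) π(x)| ≤ ε π(x)` for EVERY `x`
with `(log n) ^ C₀ ≤ x ≤ exp ((log n) ^ B)`.

`E` is a Lebesgue null set if `θ + τ + η < 1`.  So for almost every polynomial `f` of degree `d ≥ 3` with real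
coefficients and positive leading coefficient, and all large `m`, the integer part of `f(m)` has this property (and all
the integers within `m ^ (d η)` of `f(m)`, `η < 1 / 2 - 1 / d`), with no exceptional `m`; and for almost every
`(α_1, …, α_l)` and all but finitely many `(n_1, …, n_l)` all the positive integers within
`max b_j ^ (n_j η)`, `η < 1 / 2`, of `α_1 b_1 ^ (n_1) + ⋯ + α_l b_l ^ (n_l)`.

Proof: the starting result `AnyPowerOfLog` of this problem (at most `N ^ θ` exceptional `n ≤ N`), made uniform over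
the countably many data, and the covering theorem for linear forms (`Pool.Agent.N251.LF`, helper251): for each `i` the
`α` with an exceptional `n` near `α · v_i` are in few neighbourhoods of parallel affine hyperplanes.
-/

set_option autoImplicit false

namespace Pool.Agent.Results.MP_48b1c3_nt.GenericLinearForms

open NumberField Finset Filter Classical
open Pool.Agent.N251.LF (Fam Sq linear_win_nat null_of_dim)

/-- the number of primes `q ≤ x` in the set of Q1 -/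
noncomputable def S (F : IntermediateField ℚ (AlgebraicClosure ℚ)) [NumberField F]
    (C : Set (F ≃ₐ[ℚ] F)) (W : Subgroup ℚˣ) (k x : ℕ) : ℕ :=
  Nat.card {q : ℕ // q ≤ x ∧ q.Prime ∧
    (∃ σ ∈ C, ∃ Q : Ideal (𝓞 F), Q.IsPrime ∧
        Q.comap (algebraMap ℤ (𝓞 F)) = Ideal.span {(q : ℤ)} ∧
        ∀ a b : 𝓞 F, (b : F) = σ (a : F) → b - a ^ q ∈ Q) ∧
    (∀ w ∈ W, padicValRat q (w : ℚ) = 0) ∧
    (Subgroup.closure {u : (ZMod q)ˣ | ∃ w ∈ W,
        (((w : ℚ).num : ℤ) : ZMod q) = (u : ZMod q) * (((w : ℚ).den : ℕ) : ZMod q)}).index ∣ k}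

/-- Lenstra's density -/
noncomputable def δ (F : IntermediateField ℚ (AlgebraicClosure ℚ)) [NumberField F]
    (C : Set (F ≃ₐ[ℚ] F)) (W : Subgroup ℚˣ) (k : ℕ) : ℝ :=
  ∑' n : ℕ, (ArithmeticFunction.moebius n : ℝ) *
    (Nat.card {σ : F ≃ₐ[ℚ] F // σ ∈ C ∧ ∀ y : F,
        (y : AlgebraicClosure ℚ) ∈ IntermediateField.adjoin ℚ
          {z : AlgebraicClosure ℚ | ∃ w ∈ W,
            z ^ (∏ l ∈ n.primeFactors, l ^ (k.factorization l + 1)) =
              algebraMap ℚ (AlgebraicClosure ℚ) (w : ℚ)} → σ y = y} : ℝ) /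
    (Module.finrank ℚ ↥(F ⊔ IntermediateField.adjoin ℚ
          {z : AlgebraicClosure ℚ | ∃ w ∈ W,
            z ^ (∏ l ∈ n.primeFactors, l ^ (k.factorization l + 1)) =
              algebraMap ℚ (AlgebraicClosure ℚ) (w : ℚ)}) : ℝ)

/-- the group `⟨W₀, D n ^ r⟩` -/
def Gp (W₀ : Subgroup ℚˣ) (D : ℚˣ) (r n : ℕ) : Subgroup ℚˣ :=
  W₀ ⊔ Subgroup.closure {w : ℚˣ | (w : ℚ) = (D : ℚ) * (n : ℚ) ^ r}

/-- all admissible data at once: for all `ε > 0`, `c` and all but finitely many `i`, every integer `n ≥ 1` with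
`|n - α · v_i| ≤ c ‖v_i‖ ^ η` satisfies the density formula, with precision `ε`, at every `x` with
`(log n) ^ C₀ ≤ x ≤ exp ((log n) ^ B)` -/
def AllGood {ι : Type} {l : ℕ} (C₀ B η : ℝ) (v : ι → Fin l → ℝ) (α : Fin l → ℝ) : Prop :=
  ∀ (F : IntermediateField ℚ (AlgebraicClosure ℚ)) [NumberField F] [IsGalois ℚ F]
    (C : Set (F ≃ₐ[ℚ] F)) (W₀ : Subgroup ℚˣ) (k : ℕ) (D : ℚˣ) (r : ℕ),
    (∀ σ ∈ C, ∀ τ : F ≃ₐ[ℚ] F, τ * σ * τ⁻¹ ∈ C) → W₀.FG → 0 < k →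
    0 < r → (∀ q : ℕ, q.Prime → q ∣ r → q ^ (k.factorization q + 1) ∣ r) →
    ∀ ε : ℝ, 0 < ε → ∀ c : ℝ, ∃ I : Set ι, I.Finite ∧ ∀ i : ι, i ∉ I →
      ∀ n : ℕ, 1 ≤ n → |(n : ℝ) - ∑ j, α j * v i j| ≤ c * ‖v i‖ ^ η →
      ∀ x : ℕ, (Real.log n) ^ C₀ ≤ x → (x : ℝ) ≤ Real.exp ((Real.log n) ^ B) →
        |(S F C (Gp W₀ D r n) k x : ℝ) - δ F C (Gp W₀ D r n) k * (Nat.primeCounting x : ℝ)| ≤
          ε * (Nat.primeCounting x : ℝ)

/-- the index set of the data -/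
abbrev Data : Type :=
  Σ F : {F : IntermediateField ℚ (AlgebraicClosure ℚ) // FiniteDimensional ℚ F},
    Set (F.1 ≃ₐ[ℚ] F.1) × Finset ℚˣ × ℕ × ℚˣ × ℕ × ℕ

theorem cntData : Countable Data := by
  have h1 := Pool.Agent.K6.H83.LS.cntF
  have h2 := Pool.Agent.K6.H83.LS.cntU
  have h3 : ∀ F : {F : IntermediateField ℚ (AlgebraicClosure ℚ) // FiniteDimensional ℚ F},
      Countable (Set (F.1 ≃ₐ[ℚ] F.1)) := by
    intro F
    have := F.2
    have : Finite (F.1 ≃ₐ[ℚ] F.1) := inferInstance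
    infer_instance
  infer_instance

theorem main {ι : Type} {l : ℕ} (θ C₀ B η τ : ℝ) (v : ι → Fin l → ℝ) (hθ : 1 / 2 < θ) (hθ1 : θ < 1)
    (hC₀ : 1 / (2 * θ - 1) < C₀) (hB0 : 0 ≤ B) (hB : B < 1 / (2 * (1 - θ))) (hη : η < 1) (hτ : 0 ≤ τ)
    (hv : Fam v τ) :
    ∃ E : Set (Fin l → ℝ), dimH E ≤ ENNReal.ofReal ((l : ℝ) - 1 + (θ + τ) / (1 - η)) ∧
      ∀ α, α ∉ E → AllGood C₀ B η v α := by
  have key : ∀ d : Data, ∃ E : Set (Fin l → ℝ), dimH E ≤ ENNReal.ofReal ((l : ℝ) - 1 + (θ + τ) / (1 - η)) ∧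
      ∀ α, α ∉ E → ∀ [NumberField d.1.1] [IsGalois ℚ d.1.1],
        (∀ σ ∈ d.2.1, ∀ τ : d.1.1 ≃ₐ[ℚ] d.1.1, τ * σ * τ⁻¹ ∈ d.2.1) → 0 < d.2.2.2.1 →
        0 < d.2.2.2.2.2.1 →
        (∀ q : ℕ, q.Prime → q ∣ d.2.2.2.2.2.1 → q ^ (d.2.2.2.1.factorization q + 1) ∣ d.2.2.2.2.2.1) →
        ∀ c : ℝ, ∃ I : Set ι, I.Finite ∧ ∀ i : ι, i ∉ I →
          ∀ n : ℕ, 1 ≤ n → |(n : ℝ) - ∑ j, α j * v i j| ≤ c * ‖v i‖ ^ η →
          ∀ x : ℕ, (Real.log n) ^ C₀ ≤ x → (x : ℝ) ≤ Real.exp ((Real.log n) ^ B) →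
          |(S d.1.1 d.2.1 (Gp (Subgroup.closure (d.2.2.1 : Set ℚˣ)) d.2.2.2.2.1 d.2.2.2.2.2.1 n)
              d.2.2.2.1 x : ℝ) -
            δ d.1.1 d.2.1 (Gp (Subgroup.closure (d.2.2.1 : Set ℚˣ)) d.2.2.2.2.1 d.2.2.2.2.2.1 n)
              d.2.2.2.1 * (Nat.primeCounting x : ℝ)| ≤
            1 / ((d.2.2.2.2.2.2 : ℝ) + 1) * (Nat.primeCounting x : ℝ) := by
    rintro ⟨⟨F, hF⟩, C, w, k, D, r, m⟩
    by_cases hgood : ∃ (_ : NumberField F) (_ : IsGalois ℚ F),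
        (∀ σ ∈ C, ∀ τ : F ≃ₐ[ℚ] F, τ * σ * τ⁻¹ ∈ C) ∧ 0 < k ∧ 0 < r ∧
        (∀ q : ℕ, q.Prime → q ∣ r → q ^ (k.factorization q + 1) ∣ r)
    · obtain ⟨h1, h2, hC, hk, hr, hrk⟩ := hgood
      have hε : (0 : ℝ) < 1 / ((m : ℝ) + 1) := by positivity
      obtain ⟨K, hK⟩ := Pool.Agent.K6.H83.LS.bad_count θ C₀ B hθ hθ1 hC₀ hB0 hB F C
        (Subgroup.closure (w : Set ℚˣ)) k D r hC ⟨w, rfl⟩ hk hr hrk (1 / ((m : ℝ) + 1)) hε
      obtain ⟨E, hE1, hE2⟩ := linear_win_nat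
        (Pool.Agent.K6.H83.LS.Bad C₀ B (1 / ((m : ℝ) + 1)) F C (Subgroup.closure (w : Set ℚˣ)) k D r)
        v (s := θ) (τ := τ) (θ := η) (by linarith) hτ hη hv (by
          intro ε hε'
          refine ⟨|K|, fun X hX => (hK X hX).trans ?_⟩
          have hX1 : (1 : ℝ) ≤ X := by exact_mod_cast hX
          calc K * (X : ℝ) ^ θ ≤ |K| * (X : ℝ) ^ θ :=
                mul_le_mul_of_nonneg_right (le_abs_self K) (by positivity)
            _ ≤ |K| * (X : ℝ) ^ (θ + ε) :=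
                mul_le_mul_of_nonneg_left
                  (Real.rpow_le_rpow_of_exponent_le hX1 (by linarith)) (abs_nonneg K))
      refine ⟨E, hE1, fun α hαE _ _ _ _ _ _ c => ?_⟩
      refine ⟨_, hE2 α hαE c, fun i hi n hn1 hn x hx1 hx2 => ?_⟩
      by_contra hcon
      rw [not_le] at hcon
      exact hi ⟨n, Or.inr ⟨x, ⟨hx1, hx2⟩, hcon⟩, hn⟩
    · refine ⟨∅, by simp, fun α _ h1 h2 hC hk hr hrk => ?_⟩
      exact absurd ⟨h1, h2, hC, hk, hr, hrk⟩ hgood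
  choose E hE1 hE2 using key
  have := cntData
  refine ⟨⋃ d, E d, ?_, ?_⟩
  · rw [dimH_iUnion]
    exact iSup_le hE1
  · intro α hαE F _ _ C W₀ k D r hC hW hk hr hrk ε hε c
    rw [Set.mem_iUnion, not_exists] at hαE
    obtain ⟨w, rfl⟩ := hW
    obtain ⟨m, hm⟩ := exists_nat_one_div_lt hε
    have hF : FiniteDimensional ℚ F := NumberField.to_finiteDimensional
    obtain ⟨I, hI, hj⟩ := hE2 ⟨⟨F, hF⟩, C, w, k, D, r, m⟩ α (hαE _) hC hk hr hrk c
    refine ⟨I, hI, fun i hi n hn1 hn x hx1 hx2 => (hj i hi n hn1 hn x hx1 hx2).trans ?_⟩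
    exact mul_le_mul_of_nonneg_right hm.le (Nat.cast_nonneg _)

/-- **Theorem.** Let the vectors `v_i` in `ℝ ^ l` have exponent at most `τ ≥ 0` (`Fam v τ`: for every `ε > 0` at most
`C X ^ (τ + ε)` of them have norm at most `X`).  For every `α` outside ONE set of Hausdorff dimension at most
`l - 1 + (θ + τ) / (1 - η)`, all the positive integers near the values of the linear form `α · v_i` satisfy Lenstra's
density formula, for all data, with finitely many exceptions `i` for each datum, precision and window.  The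
exceptional set is Lebesgue null if `θ + τ + η < 1`.  The vectors `(1, m, …, m ^ d)` have exponent `1 / d`, the vectors
`(b_1 ^ (n_1), …, b_l ^ (n_l))` exponent `0`, the vectors `(n_1 ^ (a_1), …, n_l ^ (a_l))` exponent `∑ 1 / a_j`, and more
generally products of sequences have the sum of the exponents. -/
theorem result :
    (∀ (l : ℕ) (ι : Type) (v : ι → Fin l → ℝ) (θ C₀ B η τ : ℝ), 1 / 2 < θ → θ < 1 → 1 / (2 * θ - 1) < C₀ →
      0 ≤ B → B < 1 / (2 * (1 - θ)) → η < 1 → 0 ≤ τ → Fam v τ →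
      ∃ E : Set (Fin l → ℝ), dimH E ≤ ENNReal.ofReal ((l : ℝ) - 1 + (θ + τ) / (1 - η)) ∧
        (1 ≤ l → θ + τ + η < 1 → MeasureTheory.volume E = 0) ∧
        ∀ α, α ∉ E → AllGood C₀ B η v α) ∧
    (∀ d : ℕ, 1 ≤ d → Fam (fun (n : ℕ) (j : Fin (d + 1)) => (n : ℝ) ^ (j : ℕ)) (1 / d)) ∧
    (∀ (k : ℕ) (b : Fin k → ℝ), (∀ j, 1 < b j) → Fam (fun (n : Fin k → ℕ) (j : Fin k) => b j ^ n j) 0) ∧
    (∀ (k : ℕ) (a : Fin k → ℝ), (∀ j, 0 < a j) →
      Fam (fun (n : Fin k → ℕ) (j : Fin k) => (n j : ℝ) ^ a j) (∑ j, 1 / a j)) ∧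
    ∀ (k : ℕ) (u : Fin k → ℕ → ℝ) (τ : Fin k → ℝ), (∀ j, Sq (u j) (τ j)) →
      Fam (fun (n : Fin k → ℕ) (j : Fin k) => u j (n j)) (∑ j, τ j) := by
  refine ⟨?_, Pool.Agent.N251.LF.examples⟩
  intro l ι v θ C₀ B η τ hθ hθ1 hC₀ hB0 hB hη hτ hv
  obtain ⟨E, hE1, hE2⟩ := main θ C₀ B η τ v hθ hθ1 hC₀ hB0 hB hη hτ hv
  refine ⟨E, hE1, fun hl h => ?_, hE2⟩
  refine null_of_dim hE1 ?_ (by rw [Fintype.card_fin]; omega)
  rw [Fintype.card_fin]
  have h1 : (θ + τ) / (1 - η) < 1 := by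
    rw [div_lt_one (by linarith)]
    linarith
  linarith

end Pool.Agent.Results.MP_48b1c3_nt.GenericLinearForms
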