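import Pool.Agent.K6.H61.LE.Final

set_option autoImplicit false

/-! # Lenstra's conditions for several groups at the same time, in arbitrary sets of primes

Given are `s` families of Lenstra's data: finite Galois extensions `F_i / ℚ`, unions `C_i` of conjugacy
classes, finitely generated groups `W₀_i ≤ ℚˣ`, `k_i ≥ 1`, nonzero rationals `D_i` and exponents `r_i ≥ 1`
(every `r_i` if `k_i = 1`; `r_i = 1` for every `k_i`; in general `l ^ (ν_l(k_i) + 1) ∣ r_i` for the primes
`l ∣ r_i`), and the groups `W_i = ⟨W₀_i, D_i n ^ r_i⟩`, `n = 1, 2, …`.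

Let `1 / 2 < θ < 1`, `C₀ > 1 / (2 θ - 1)` and `B < 1 / (2 (1 - θ))`. For every `ε > 0`, all large `N` and EVERY
set `S` of primes: for all but at most `N ^ (s - 1 + θ)` of the `N ^ s` tuples `(n_1, …, n_s)` of integers up to
`N` the number of the primes `q ≤ x` of `S` which belong to all the sets
`𝒮(F_i, C_i, ⟨W₀_i, D_i n_i ^ r_i⟩, k_i)`, `i = 1, …, s`, is the sum over the primes `q ≤ x` of `S` of the
products of the local densities of the families at `q`, up to `ε π(x)`, for EVERY `x` with
`(log N) ^ C₀ ≤ x ≤ exp ((log N) ^ B)`.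

The local density of a family at `q` is an explicit product over the primes dividing `q - 1`
(`Family.factor`, `Family.loc` in `Pool/Agent/K6/H61/LE/Defs.lean`).

New: files `K6/H61/SI` (several variables and arbitrary weights on the primes in the large sieve for
products of characters of many primes; used before for the primitive roots of `MP_991e92_nt`) and
`K6/H61/LE`. Starting library: helper734, helper345 (large sieve for products of characters), helper171,
helper893 (local conditions for the groups `⟨W₀, D n ^ r⟩`), helper386, helper771, helper981, helper401. -/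

namespace Pool.Agent.Results.MP_48b1c3_nt.SimultaneousGroups

open Pool.Agent.K6.H61.LE

theorem result (θ C₀ B : ℝ) (hθ : 1 / 2 < θ) (hθ1 : θ < 1) (hC₀ : 1 / (2 * θ - 1) < C₀)
    (hB : B < 1 / (2 * (1 - θ))) (s : ℕ) (A : Fin s → Family) (ε : ℝ) (hε : 0 < ε) :
    ∃ N₀ : ℕ, ∀ N : ℕ, N₀ ≤ N → ∀ S : Set ℕ,
      ((exceptions A S ε C₀ B N).card : ℝ) ≤ (N : ℝ) ^ ((s : ℝ) - 1 + θ) :=
  main θ C₀ B hθ hθ1 hC₀ hB s A ε hε

end Pool.Agent.Results.MP_48b1c3_nt.SimultaneousGroups
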